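import Pool.Agent.Helper26.M7.Words4
import Pool.Agent.Helper56.M7.Step0
import Pool.Agent.Helper59.RG.CasePlus

/-!
The word `W0` at a side with seven vertices. (Problem MP_d067c8_co.)
-/

namespace Pool.Agent.Helper46.M7

open Finset Pool.Agent.Helper19.CF Pool.Agent.Helper19.RG Pool.Agent.Helper26.M7

variable {N : ℕ} [NeZero N] {f : Equiv.Perm (ZMod N)} {c d : ZMod N}

/-- The spokes of the word, with indices `1, ..., 6`. -/
def w0q (f : Equiv.Perm (ZMod N)) (c d : ZMod N) (i : ℤ) : ZMod N :=
  if i = 1 then f.symm (f c - 1) else if i = 2 then c else if i = 3 then c + 1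
  else if i = 4 then c - 2 else if i = 5 then c - 1 else f.symm (d - 1)

/-- The colours. -/
def w0A (p : ℕ) : ℕ := if p = 0 then 0 else p + 1
def w0B (y p : ℕ) : ℕ := if 2 ≤ p ∧ p < y then p + 1 else p

/-- The positions of the spokes. -/
structure W0Pos (f : Equiv.Perm (ZMod N)) (c d : ZMod N) (w y v : ℕ) : Prop where
  q1 : (w0q f c d 1 - c).val = w
  q2 : (w0q f c d 2 - c).val = 0
  q3 : (w0q f c d 3 - c).val = 1
  q4 : (w0q f c d 4 - c).val = N - 2
  q5 : (w0q f c d 5 - c).val = N - 1
  q6 : (w0q f c d 6 - c).val = v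
  r1 : (f (w0q f c d 1) - d).val = y - 1
  r2 : (f (w0q f c d 2) - d).val = y
  r3 : (f (w0q f c d 3) - d).val = 1
  r4 : (f (w0q f c d 4) - d).val = 2
  r5 : (f (w0q f c d 5) - d).val = 0
  r6 : (f (w0q f c d 6) - d).val = N - 1
  w1 : w % 2 = 1
  wN : w < N
  w2 : w ≠ 1
  w3 : w ≠ N - 2
  y1 : y % 2 = 1
  y2 : 5 ≤ y
  y3 : y + 2 ≤ N
  v1 : v % 2 = 0
  v2 : v ≠ 0
  v3 : v + 1 < N

theorem w0_pos (hb : Bad f) (h : M7 f c d) (hw : (f.symm (f c - 1) - c).val % 2 = 1) :
    W0Pos f c d (f.symm (f c - 1) - c).val (f c - d).val (f.symm (d - 1) - c).val := by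
  have hN := hb.hN
  have hodd := hb.hodd
  obtain ⟨t1, t2, t3, t4, t5⟩ := h.step0 hb
  obtain ⟨y1, y2⟩ := h.y_ne hb
  have hyN := ZMod.val_lt (f c - d)
  have hwN := ZMod.val_lt (f.symm (f c - 1) - c)
  have hvN := ZMod.val_lt (f.symm (d - 1) - c)
  have c0 := pos_zero c
  have c1 := pos_one hN c
  have cm1 := pos_m1 hN c
  have cm2 := pos_m2 hN c
  have d0 := pos_zero d
  have d1 := pos_one hN d
  have d2 := pos_two hN d
  have d3 := pos_three hN d
  have dm1 := pos_m1 hN d
  have ya : (f c - d).val ≠ 1 := by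
    intro e
    have e1 : f c = f (c + 1) := by rw [h.g]; exact pos_inj d (by omega)
    have e2 := congrArg (fun z => (z - c).val) (f.injective e1)
    omega
  have yb : (f c - d).val ≠ 3 := fun e => y1 (pos_inj d (by omega))
  have yp := pos_pred hN d (f c) (by omega)
  refine ⟨?_, ?_, ?_, ?_, ?_, ?_, ?_, ?_, ?_, ?_, ?_, ?_, hw, hwN, ?_, ?_, t5, by omega, by omega,
    t2, ?_, ?_⟩
  · simp [w0q]
  · simp [w0q]
  · simpa [w0q] using c1
  · simpa [w0q] using cm2
  · simpa [w0q] using cm1
  · simp [w0q]
  · have : w0q f c d 1 = f.symm (f c - 1) := by simp [w0q]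
    rw [this, Equiv.apply_symm_apply, yp]
  · simp [w0q]
  · have : w0q f c d 3 = c + 1 := by simp [w0q]
    rw [this, h.g, d1]
  · have : w0q f c d 4 = c - 2 := by simp [w0q]
    rw [this, h.a, d2]
  · have : w0q f c d 5 = c - 1 := by simp [w0q]
    rw [this, h.b, d0]
  · have : w0q f c d 6 = f.symm (d - 1) := by simp [w0q]
    rw [this, Equiv.apply_symm_apply, dm1]
  · intro e
    have e1 : f.symm (f c - 1) = c + 1 := pos_inj c (by omega)
    rw [Equiv.symm_apply_eq, h.g] at e1
    rw [e1] at yp
    omega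
  · intro e
    have e1 : f.symm (f c - 1) = c - 2 := pos_inj c (by omega)
    rw [Equiv.symm_apply_eq, h.a] at e1
    rw [e1] at yp
    omega
  · intro e
    have e1 : f.symm (d - 1) = c := pos_inj c (by omega)
    rw [Equiv.symm_apply_eq] at e1
    exact y2 e1.symm
  · by_contra hh
    have e1 : f.symm (d - 1) = c - 1 := pos_inj c (by omega)
    rw [Equiv.symm_apply_eq, h.b] at e1
    rw [e1] at dm1
    omega

/-- The word is valid. -/
theorem w0_qz (hb : Bad f) (h : M7 f c d) (hw : (f.symm (f c - 1) - c).val % 2 = 1) :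
    QZ f 1 6 (w0q f c d) (fun x => decide (w0A (x - c).val % 2 = 0))
      (fun y => decide (w0B (f c - d).val (y - d).val % 2 = 0)) := by
  have hN := hb.hN
  have hodd := hb.hodd
  obtain ⟨q1, q2, q3, q4, q5, q6, r1, r2, r3, r4, r5, r6, w1, wN, w2, w3, y1, y2, y3, v1, v2,
    v3⟩ := w0_pos hb h hw
  have hcase : ∀ i : ℤ, 1 ≤ i → i ≤ 6 → i = 1 ∨ i = 2 ∨ i = 3 ∨ i = 4 ∨ i = 5 ∨ i = 6 := by
    intro i _ _
    omega
  have k1 : w0q f c d 1 = f.symm (f c - 1) := by simp [w0q]
  have k2 : w0q f c d 2 = c := by simp [w0q]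
  have k3 : w0q f c d 3 = c + 1 := by simp [w0q]
  have k4 : w0q f c d 4 = c - 2 := by simp [w0q]
  have k5 : w0q f c d 5 = c - 1 := by simp [w0q]
  have k6 : w0q f c d 6 = f.symm (d - 1) := by simp [w0q]
  have f1 : f (w0q f c d 1) = f c - 1 := by rw [k1, Equiv.apply_symm_apply]
  have f6 : f (w0q f c d 6) = d - 1 := by rw [k6, Equiv.apply_symm_apply]
  refine qz_pos (c := c) (d := d) w0A (w0B (f c - d).val) (by norm_num) ?_ ?_ ?_ ?_ ?_ ?_
  · intro i i' h1 h2 h3 h4 e
    have e' := congrArg (fun z => (z - c).val) e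
    rcases hcase i h1 h2 with rfl | rfl | rfl | rfl | rfl | rfl <;>
      rcases hcase i' h3 h4 with rfl | rfl | rfl | rfl | rfl | rfl <;>
      simp only [q1, q2, q3, q4, q5, q6] at e' <;> first | rfl | (exfalso; omega)
  · intro i h1 h2 h3
    have : i = 2 ∨ i = 4 := by omega
    rcases this with rfl | rfl
    · left
      show w0q f c d 3 = _
      rw [k2, k3]
    · left
      show w0q f c d 5 = _
      rw [k4, k5]
      ring
  · intro i h1 h2 h3
    have : i = 1 ∨ i = 3 ∨ i = 5 := by omega
    rcases this with rfl | rfl | rfl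
    · left
      show f (w0q f c d 2) = _
      rw [f1, k2]
      ring
    · left
      show f (w0q f c d 4) = _
      rw [k3, k4, h.a, h.g]
      ring
    · right
      show _ = f (w0q f c d 6) + 1
      rw [f6, k5, h.b]
      ring
  · intro i h1 h2
    rcases hcase i h1 h2 with rfl | rfl | rfl | rfl | rfl | rfl
    · rw [q1, r1]
      unfold w0A w0B
      rw [if_neg (by omega), if_pos (by omega)]
      omega
    · rw [q2, r2]
      unfold w0A w0B
      rw [if_pos rfl, if_neg (by omega)]
      omega
    · rw [q3, r3]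
      unfold w0A w0B
      rw [if_neg (by omega), if_neg (by omega)]
    · rw [q4, r4]
      unfold w0A w0B
      rw [if_neg (by omega), if_pos (by omega)]
      omega
    · rw [q5, r5]
      unfold w0A w0B
      rw [if_neg (by omega), if_neg (by omega)]
      omega
    · rw [q6, r6]
      unfold w0A w0B
      rw [if_neg (by omega), if_neg (by omega)]
      omega
  · intro u hu hm
    have hu0 : u = 0 := by
      unfold w0A at hm
      by_contra h0
      rw [if_neg h0] at hm
      split_ifs at hm <;> omega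
    subst hu0
    refine ⟨2, by norm_num, by norm_num, by norm_num, ?_⟩
    left
    constructor
    · rw [k2]
      push_cast
      ring
    · show w0q f c d 3 = _
      rw [k3]
      push_cast
      ring
  · intro u hu hm
    have hu3 : u = 1 ∨ u + 1 = (f c - d).val ∨ u + 1 = N := by
      unfold w0B at hm
      by_contra h0
      push Not at h0
      rw [if_neg h0.2.2] at hm
      split_ifs at hm <;> omega
    rcases hu3 with rfl | hu3 | hu3
    · refine ⟨3, by norm_num, by norm_num, by norm_num, ?_⟩
      left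
      constructor
      · rw [k3, h.g]
        push_cast
        ring
      · show f (w0q f c d 4) = _
        rw [k4, h.a]
        push_cast
        ring
    · refine ⟨1, by norm_num, by norm_num, by norm_num, ?_⟩
      have e1 : f c = d + (u : ZMod N) + 1 := by
        have e2 := at_pos d (f c)
        rw [← hu3] at e2
        rw [e2]
        push_cast
        ring
      left
      constructor
      · rw [f1, e1]
        ring
      · show f (w0q f c d 2) = _
        rw [k2, e1]
    · refine ⟨5, by norm_num, by norm_num, by norm_num, ?_⟩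
      have e1 : (u : ZMod N) + 1 = 0 := by
        have e2 : ((u + 1 : ℕ) : ZMod N) = 0 := by rw [hu3, ZMod.natCast_self]
        push_cast at e2
        exact e2
      right
      constructor
      · rw [k5, h.b]
        linear_combination -e1
      · show f (w0q f c d 6) = _
        rw [f6]
        linear_combination -e1

/-- The word is killed only at the star. -/
theorem w0 (hb : Bad f) (h : M7 f c d) (hw : (f.symm (f c - 1) - c).val % 2 = 1) :
    Pool.Agent.Helper59.RG.W0 f c d := by
  have hN := hb.hN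
  have hodd := hb.hodd
  obtain ⟨q1, q2, q3, q4, q5, q6, r1, r2, r3, r4, r5, r6, w1, wN, w2, w3, y1, y2, y3, v1, v2,
    v3⟩ := w0_pos hb h hw
  obtain ⟨Y, k, hk, hk1, hk2⟩ := hb.kill (w0_qz hb h hw)
  have k1 : w0q f c d 1 = f.symm (f c - 1) := by simp [w0q]
  have k2 : w0q f c d 2 = c := by simp [w0q]
  have k3 : w0q f c d 3 = c + 1 := by simp [w0q]
  have k4 : w0q f c d 4 = c - 2 := by simp [w0q]
  have k5 : w0q f c d 5 = c - 1 := by simp [w0q]
  have k6 : w0q f c d 6 = f.symm (d - 1) := by simp [w0q]
  have f1 : f (w0q f c d 1) = f c - 1 := by rw [k1, Equiv.apply_symm_apply]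
  have f6 : f (w0q f c d 6) = d - 1 := by rw [k6, Equiv.apply_symm_apply]
  -- the colour of the last vertex
  have hend : qC (fun x => decide (w0A (x - c).val % 2 = 0))
      (fun y => decide (w0B (f c - d).val (y - d).val % 2 = 0)) (endB f (w0q f c d) 6) =
      false := by
    unfold endB
    rw [if_pos (by norm_num)]
    show decide (w0A (w0q f c d 6 - c).val % 2 = 0) = false
    rw [q6, decide_eq_false_iff_not]
    unfold w0A
    rw [if_neg v2]
    omega
  have bA : ∀ x : ZMod N, (.inl x : ZMod N ⊕ ZMod N) ∈ Y →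
      ((.inl (x + 1) : ZMod N ⊕ ZMod N) ∉ Y ∨ (.inl (x - 1) : ZMod N ⊕ ZMod N) ∉ Y) →
      w0A (x - c).val % 2 = 1 := by
    intro x hx hx'
    have key : ∀ z : ZMod N, (permGraph N f).Adj (.inl x) (.inl z) →
        (.inl z : ZMod N ⊕ ZMod N) ∉ Y → w0A (x - c).val % 2 = 1 := by
      intro z hxz hz
      have g1 := hk.bd _ hx _ hz hxz
      rw [hend] at g1
      have g2 : decide (w0A (x - c).val % 2 = 0) = false := g1
      rw [decide_eq_false_iff_not] at g2
      omega
    rcases hx' with hx' | hx'
    · exact key _ (adjA hb x) hx'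
    · exact key _ (adjA' hb x) hx'
  have bB : ∀ x : ZMod N, (.inr x : ZMod N ⊕ ZMod N) ∈ Y →
      ((.inr (x + 1) : ZMod N ⊕ ZMod N) ∉ Y ∨ (.inr (x - 1) : ZMod N ⊕ ZMod N) ∉ Y) →
      w0B (f c - d).val (x - d).val % 2 = 1 := by
    intro x hx hx'
    have key : ∀ z : ZMod N, (permGraph N f).Adj (.inr x) (.inr z) →
        (.inr z : ZMod N ⊕ ZMod N) ∉ Y → w0B (f c - d).val (x - d).val % 2 = 1 := by
      intro z hxz hz
      have g1 := hk.bd _ hx _ hz hxz
      rw [hend] at g1
      have g2 : decide (w0B (f c - d).val (x - d).val % 2 = 0) = false := g1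
      rw [decide_eq_false_iff_not] at g2
      omega
    rcases hx' with hx' | hx'
    · exact key _ (adjB hb x) hx'
    · exact key _ (adjB' hb x) hx'
  -- spokes before and behind
  have hbef : ∀ i, 1 ≤ i → i < k → (.inl (w0q f c d i) : ZMod N ⊕ ZMod N) ∈ Y ∧
      (.inr (f (w0q f c d i)) : ZMod N ⊕ ZMod N) ∈ Y := by
    intro i h1 h2
    have g1 := hk.entIn i h1 h2.le
    have g2 := hk.exIn i h1 h2
    unfold ent at g1
    unfold Helper19.RG.ext at g2
    rcases Int.emod_two_eq_zero_or_one i with g4 | g4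
    · rw [if_pos g4] at g1 g2
      exact ⟨g2, g1⟩
    · rw [if_neg (by omega)] at g1 g2
      exact ⟨g1, g2⟩
  have haft : ∀ i, k < i → i ≤ 6 → (.inl (w0q f c d i) : ZMod N ⊕ ZMod N) ∉ Y ∧
      (.inr (f (w0q f c d i)) : ZMod N ⊕ ZMod N) ∉ Y := by
    intro i h1 h2
    have g1 := hk.entOut i h1 h2
    have g2 := hk.exOut i h1.le h2
    unfold ent at g1
    unfold Helper19.RG.ext at g2
    rcases Int.emod_two_eq_zero_or_one i with g4 | g4
    · rw [if_pos g4] at g1 g2
      exact ⟨g2, g1⟩
    · rw [if_neg (by omega)] at g1 g2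
      exact ⟨g1, g2⟩
  have hcases : k = 2 ∨ k = 3 ∨ k = 4 ∨ k = 5 := by omega
  rcases hcases with rfl | rfl | rfl | rfl
  · -- the star
    have hcut := hk.cut.1 (by norm_num)
    have hnbr := hk.nbr hb
    obtain ⟨n1, n2, n3, n4⟩ := hnbr.1 (by norm_num)
    rw [k2] at hcut n1 n2 n3 n4
    obtain ⟨g1, g2⟩ := haft 3 (by norm_num) (by norm_num)
    obtain ⟨a1, a2⟩ := haft 4 (by norm_num) (by norm_num)
    obtain ⟨b1, b2⟩ := haft 5 (by norm_num) (by norm_num)
    obtain ⟨e1, e2⟩ := haft 6 (by norm_num) (by norm_num)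
    rw [k3] at g1 g2
    rw [k4] at a1 a2
    rw [k5] at b1 b2
    rw [f6] at e2
    rw [k6] at e1
    rw [h.g] at g2
    rw [h.a] at a2
    rw [h.b] at b2
    obtain ⟨p, q, r, s, hbox⟩ := hk.side.box hN hcut.2 b2
    have other : ∀ x, x ≠ c → ((.inl x : ZMod N ⊕ ZMod N) ∈ Y ↔
        (.inr (f x) : ZMod N ⊕ ZMod N) ∈ Y) := by
      intro x hx
      have := hk.other x
      rw [k2] at this
      exact this hx
    have yp := pos_pred hN d (f c) (by omega)
    have ys := pos_succ hN d (f c) (by omega)
    have d2 := pos_two hN d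
    have m1 := (hbox.memB _).mp n4
    have m2 := (hbox.memB _).mp n3
    have m3 : ¬ _ := fun hh => a2 ((hbox.memB _).mpr hh)
    rw [yp] at m1
    rw [ys] at m2
    rw [d2] at m3
    have hr3 : 3 ≤ r := by
      by_contra hh
      exact m3 ⟨by omega, by omega⟩
    have hp1 := hbox.p1
    have hpq := hbox.pq
    have hqN := hbox.qN
    have hrs := hbox.rs
    have hsN := hbox.sN
    -- the four boundary vertices
    have pp : (c + (p : ZMod N) - c).val = p := pos_nat c (by omega)
    have pm : (c + (p : ZMod N) - 1 - c).val = p - 1 := by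
      rw [pos_pred hN c _ (by rw [pp]; exact hp1), pp]
    have qq : (c + (q : ZMod N) - c).val = q := pos_nat c (by omega)
    have rr' : (d + (r : ZMod N) - d).val = r := pos_nat d (by omega)
    have rm : (d + (r : ZMod N) - 1 - d).val = r - 1 := by
      rw [pos_pred hN d _ (by rw [rr']; omega), rr']
    have ss : (d + (s : ZMod N) - d).val = s := pos_nat d (by omega)
    have P1 := bA (c + (p : ZMod N)) ((hbox.memA _).mpr (by rw [pp]; omega))
      (Or.inr fun hh => by
        have := (hbox.memA _).mp hh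
        rw [pm] at this
        omega)
    have Q1 := bA (c + (q : ZMod N)) ((hbox.memA _).mpr (by rw [qq]; omega))
      (Or.inl fun hh => by
        have h3 := (hbox.memA _).mp hh
        by_cases h4 : q + 1 < N
        · rw [pos_succ hN c _ (by rw [qq]; exact h4), qq] at h3
          omega
        · have h5 : c + (q : ZMod N) + 1 = c := by
            have h6 : ((q + 1 : ℕ) : ZMod N) = 0 := by
              have : q + 1 = N := by omega
              rw [this, ZMod.natCast_self]
            push_cast at h6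
            linear_combination h6
          rw [h5, pos_zero] at h3
          omega)
    have R1 := bB (d + (r : ZMod N)) ((hbox.memB _).mpr (by rw [rr']; omega))
      (Or.inr fun hh => by
        have := (hbox.memB _).mp hh
        rw [rm] at this
        omega)
    have S1 := bB (d + (s : ZMod N)) ((hbox.memB _).mpr (by rw [ss]; omega))
      (Or.inl fun hh => by
        have h3 := (hbox.memB _).mp hh
        by_cases h4 : s + 1 < N
        · rw [pos_succ hN d _ (by rw [ss]; exact h4), ss] at h3
          omega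
        · have h5 : d + (s : ZMod N) + 1 = d := by
            have h6 : ((s + 1 : ℕ) : ZMod N) = 0 := by
              have : s + 1 = N := by omega
              rw [this, ZMod.natCast_self]
            push_cast at h6
            linear_combination h6
          rw [h5, pos_zero] at h3
          omega)
    rw [pp] at P1
    rw [qq] at Q1
    rw [rr'] at R1
    rw [ss] at S1
    unfold w0A at P1 Q1
    unfold w0B at R1 S1
    rw [if_neg (by omega)] at P1 Q1
    rw [if_pos (by omega)] at R1
    rw [if_neg (by omega)] at S1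
    refine ⟨Y, p, q, r, s, hk.side, hbox, hcut.1, other, n4, n3, ?_, e2, e1, by omega,
      by omega, by omega, by omega⟩
    intro v hv
    rcases v with v | v
    · rw [mem_m7_l hN] at hv
      rcases hv with rfl | rfl | rfl | rfl
      · exact a1
      · exact b1
      · exact hcut.2
      · exact g1
    · rw [mem_m7_r hN] at hv
      rcases hv with rfl | rfl | rfl
      · exact b2
      · exact g2
      · exact a2
  · -- spoke `g`
    exfalso
    obtain ⟨g1, g2⟩ := hbef 2 (by norm_num) (by norm_num)
    obtain ⟨b1, b2⟩ := haft 5 (by norm_num) (by norm_num)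
    rw [k2] at g1
    rw [k5] at b1
    have := bA c g1 (Or.inr b1)
    rw [pos_zero] at this
    unfold w0A at this
    rw [if_pos rfl] at this
    omega
  · -- spoke `a`
    exfalso
    obtain ⟨g1, g2⟩ := hbef 2 (by norm_num) (by norm_num)
    obtain ⟨b1, b2⟩ := haft 5 (by norm_num) (by norm_num)
    rw [k2] at g1
    rw [k5] at b1
    have := bA c g1 (Or.inr b1)
    rw [pos_zero] at this
    unfold w0A at this
    rw [if_pos rfl] at this
    omega
  · -- spoke `b`
    exfalso
    obtain ⟨g1, g2⟩ := hbef 3 (by norm_num) (by norm_num)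
    rw [k3, h.g] at g2
    obtain ⟨n1, n2, n3, n4⟩ := (hk.nbr hb).2 (by norm_num)
    rw [k5, h.b] at n3
    exact n3 g2

end Pool.Agent.Helper46.M7
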