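import Pool.Agent.Helper59.RG.CasePlus
import Pool.Agent.Helper21.RG.Nine
import Pool.Agent.Helper19.RG.Main

/-!
A free side with seven vertices has a neighbouring side with seven vertices.
(Problem MP_d067c8_co.)
-/

namespace Pool.Agent.Helper46.M7

open Finset Pool.Agent.Helper19.CF Pool.Agent.Helper19.RG

variable {N : ℕ} [NeZero N] {f : Equiv.Perm (ZMod N)} {c d : ZMod N}

theorem val_eq_iff {j : ℕ} (hj : j < N) (x c : ZMod N) : (x - c).val = j ↔ x = c + (j : ZMod N) := by
  constructor
  · intro h
    rw [← h, ZMod.natCast_zmod_val]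
    ring
  · intro h
    have h1 : x - c = j := by rw [h]; ring
    rw [h1, ZMod.val_natCast_of_lt hj]

/-- The statement of the word C0. -/
def SC0 (f : Equiv.Perm (ZMod N)) (c d : ZMod N) : Prop :=
  (f.symm (f c - 1) - c).val % 2 = 0 →
    ∃ (X : Finset (ZMod N ⊕ ZMod N)) (p q r s : ℕ), Side f X ∧ Box X c d p q r s ∧
      (.inr (f c) : ZMod N ⊕ ZMod N) ∈ X ∧
      (∀ x, x ≠ c → ((.inl x : ZMod N ⊕ ZMod N) ∈ X ↔ (.inr (f x) : ZMod N ⊕ ZMod N) ∈ X)) ∧
      (.inr (f c - 1) : ZMod N ⊕ ZMod N) ∈ X ∧ (.inr (f c + 1) : ZMod N ⊕ ZMod N) ∈ X ∧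
      (.inl (c - 1) : ZMod N ⊕ ZMod N) ∉ X ∧
      p % 2 = 1 ∧ q % 2 = 1 ∧ r % 2 = 0 ∧ s % 2 = 1

/-- From a box of size `3 × 4` to the two options. -/
theorem opts_of_box (hb : Bad f) (h : M7 f c d) {X : Finset (ZMod N ⊕ ZMod N)} {p q r s : ℕ}
    (hbox : Box X c d p q r s) (h7 : X.card = 7)
    (hc : (.inr (f c) : ZMod N ⊕ ZMod N) ∈ X)
    (ho : ∀ x, x ≠ c → ((.inl x : ZMod N ⊕ ZMod N) ∈ X ↔ (.inr (f x) : ZMod N ⊕ ZMod N) ∈ X))
    (hm : (.inr (f c - 1) : ZMod N ⊕ ZMod N) ∈ X) (hp : (.inr (f c + 1) : ZMod N ⊕ ZMod N) ∈ X)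
    (hr : r % 2 = 0) :
    ∃ z : ZMod N, f (z + 1) = f c - 1 ∧ ((f z = f c + 1 ∧ f (z + 2) = f c + 2) ∨
      (f z = f c + 2 ∧ f (z + 2) = f c + 1)) := by
  classical
  have hN := hb.hN
  have hodd := hb.hodd
  obtain ⟨t1, t2, t3, t4, t5⟩ := h.step0 hb
  have hcX : (.inl c : ZMod N ⊕ ZMod N) ∉ X := by
    rw [hbox.memA, sub_self, ZMod.val_zero]
    have := hbox.p1
    omega
  have hAB := card_star' hcX hc ho
  have hcard : X.card = nA X + nB X := by rw [card_eq_nl_nr, nl_eq, nr_eq]
  have e1 := hbox.cardA
  have e2 := hbox.cardB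
  have hq : q = p + 2 := by omega
  have hs : s = r + 3 := by omega
  subst hq
  subst hs
  -- the rows
  have v0 : (f c - d).val < N := ZMod.val_lt _
  have hne : f c - d ≠ 0 := by
    intro h0
    rw [h0, ZMod.val_zero] at t5
    omega
  have v1 : (f c - 1 - d).val = (f c - d).val - 1 := by
    have g : f c - 1 - d = (f c - d) - 1 := by ring
    rw [g, val_sub_one (by omega), if_neg hne]
  have v2 : (f c + 1 - d).val = (f c - d).val + 1 := by
    have g : f c + 1 - d = (f c - d) + ((1 : ℕ) : ZMod N) := by push_cast; ring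
    rw [g, Pool.Agent.Helper59.RG.val_add_nat _ _ (by omega)]
  rw [hbox.memB, v1] at hm
  rw [hbox.memB, v2] at hp
  have hrY : r = (f c - d).val - 1 := by omega
  have hsN := hbox.sN
  have v3 : (f c + 2 - d).val = (f c - d).val + 2 := by
    have g : f c + 2 - d = (f c - d) + ((2 : ℕ) : ZMod N) := by push_cast; ring
    rw [g, Pool.Agent.Helper59.RG.val_add_nat _ _ (by omega)]
  have hrow : ∀ y, (.inr y : ZMod N ⊕ ZMod N) ∈ X →
      y = f c - 1 ∨ y = f c ∨ y = f c + 1 ∨ y = f c + 2 := by
    intro y hy
    rw [hbox.memB] at hy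
    have hcs : (y - d).val = (f c - 1 - d).val ∨ (y - d).val = (f c - d).val ∨
        (y - d).val = (f c + 1 - d).val ∨ (y - d).val = (f c + 2 - d).val := by
      rw [v1, v2, v3]
      omega
    rcases hcs with g | g | g | g
    · left
      have := ZMod.val_injective N g
      linear_combination this
    · right; left
      have := ZMod.val_injective N g
      linear_combination this
    · right; right; left
      have := ZMod.val_injective N g
      linear_combination this
    · right; right; right
      have := ZMod.val_injective N g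
      linear_combination this
  have hqN := hbox.qN
  have hp1 := hbox.p1
  have hcol : ∀ j : ℕ, j ≤ 2 → (.inl (c + (p : ZMod N) + (j : ZMod N)) : ZMod N ⊕ ZMod N) ∈ X ∧
      c + (p : ZMod N) + (j : ZMod N) ≠ c := by
    intro j hj
    have g : (c + (p : ZMod N) + (j : ZMod N) - c).val = p + j := by
      have g1 : c + (p : ZMod N) + (j : ZMod N) - c = ((p + j : ℕ) : ZMod N) := by
        push_cast; ring
      rw [g1, ZMod.val_natCast_of_lt (by omega)]
    constructor
    · rw [hbox.memA, g]
      omega
    · intro h0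
      rw [h0, sub_self, ZMod.val_zero] at g
      omega
  have hval : ∀ j : ℕ, j ≤ 2 → f (c + (p : ZMod N) + (j : ZMod N)) = f c - 1 ∨
      f (c + (p : ZMod N) + (j : ZMod N)) = f c + 1 ∨
      f (c + (p : ZMod N) + (j : ZMod N)) = f c + 2 := by
    intro j hj
    obtain ⟨g1, g2⟩ := hcol j hj
    rcases hrow _ ((ho _ g2).mp g1) with g | g | g | g
    · exact Or.inl g
    · exact absurd (f.injective g) g2
    · exact Or.inr (Or.inl g)
    · exact Or.inr (Or.inr g)
  have w0 := hval 0 (by omega)
  have w1 := hval 1 (by omega)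
  have w2 := hval 2 (by omega)
  have i1 : (1 : ZMod N) ≠ 0 := Pool.Agent.Helper56.M7.one_ne' (by omega)
  have i2 : (2 : ZMod N) ≠ 0 := Pool.Agent.Helper56.M7.two_ne' (by omega)
  have n01 : f (c + (p : ZMod N) + ((0 : ℕ) : ZMod N)) ≠ f (c + (p : ZMod N) + ((1 : ℕ) : ZMod N)) := by
    intro g
    have := f.injective g
    push_cast at this
    exact i1 (by linear_combination -this)
  have n12 : f (c + (p : ZMod N) + ((1 : ℕ) : ZMod N)) ≠ f (c + (p : ZMod N) + ((2 : ℕ) : ZMod N)) := by
    intro g
    have := f.injective g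
    push_cast at this
    exact i1 (by linear_combination -this)
  have n02 : f (c + (p : ZMod N) + ((0 : ℕ) : ZMod N)) ≠ f (c + (p : ZMod N) + ((2 : ℕ) : ZMod N)) := by
    intro g
    have := f.injective g
    push_cast at this
    exact i2 (by linear_combination -this)
  have four := noFour_of_cyc f (by omega) hb.cyc
  have f01 := four (c + (p : ZMod N) + ((0 : ℕ) : ZMod N))
  have f12 := four (c + (p : ZMod N) + ((1 : ℕ) : ZMod N))
  have a1 : c + (p : ZMod N) + ((0 : ℕ) : ZMod N) + 1 = c + (p : ZMod N) + ((1 : ℕ) : ZMod N) := by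
    push_cast; ring
  have a2 : c + (p : ZMod N) + ((1 : ℕ) : ZMod N) + 1 = c + (p : ZMod N) + ((2 : ℕ) : ZMod N) := by
    push_cast; ring
  rw [a1] at f01
  rw [a2] at f12
  have b0 : c + (p : ZMod N) + ((0 : ℕ) : ZMod N) = c + (p : ZMod N) := by push_cast; ring
  have b1 : c + (p : ZMod N) + ((1 : ℕ) : ZMod N) = c + (p : ZMod N) + 1 := by push_cast; ring
  have b2 : c + (p : ZMod N) + ((2 : ℕ) : ZMod N) = c + (p : ZMod N) + 2 := by push_cast; ring
  rw [b0] at w0 n01 n02 f01
  rw [b1] at w1 n01 n12 f01 f12
  rw [b2] at w2 n12 n02 f12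
  refine ⟨c + (p : ZMod N), ?_⟩
  rcases w1 with w1 | w1 | w1
  · refine ⟨w1, ?_⟩
    rcases w0 with w0 | w0 | w0
    · exact absurd (w0.trans w1.symm) n01
    · rcases w2 with w2 | w2 | w2
      · exact absurd (w1.trans w2.symm) n12
      · exact absurd (w0.trans w2.symm) n02
      · exact Or.inl ⟨w0, w2⟩
    · rcases w2 with w2 | w2 | w2
      · exact absurd (w1.trans w2.symm) n12
      · exact Or.inr ⟨w0, w2⟩
      · exact absurd (w0.trans w2.symm) n02
  · exfalso
    rcases w0 with w0 | w0 | w0
    · rcases w2 with w2 | w2 | w2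
      · exact n02 (w0.trans w2.symm)
      · exact n12 (w1.trans w2.symm)
      · exact f12.1 (by rw [w2, w1]; ring)
    · exact n01 (w0.trans w1.symm)
    · exact f01.2 (by rw [w1, w0]; ring)
  · exfalso
    rcases w0 with w0 | w0 | w0
    · rcases w2 with w2 | w2 | w2
      · exact n02 (w0.trans w2.symm)
      · exact f12.2 (by rw [w2, w1]; ring)
      · exact n12 (w1.trans w2.symm)
    · exact f01.1 (by rw [w1, w0]; ring)
    · exact n01 (w0.trans w1.symm)

/-- The neighbouring side of a free side. -/
theorem opts (hb : Bad f)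
    (h1 : ∀ X Y : Finset (ZMod N ⊕ ZMod N), Side f X → X.card = 9 → Side f Y → Y.card = 7 →
      ¬ Y ⊆ X)
    {S : Finset (ZMod N ⊕ ZMod N)} (hS : Min9 f S) (h : Free f S c d)
    (hw0 : (f.symm (f c - 1) - c).val % 2 = 1 → Pool.Agent.Helper59.RG.W0 f c d)
    (hc0 : SC0 f c d) :
    ∃ z : ZMod N, f (z + 1) = f c - 1 ∧ ((f z = f c + 1 ∧ f (z + 2) = f c + 2) ∨
      (f z = f c + 2 ∧ f (z + 2) = f c + 1)) := by
  classical
  have hN := hb.hN
  have hm := h.m
  have hm7 := hm.side hN
  rcases Nat.mod_two_eq_zero_or_one (f.symm (f c - 1) - c).val with hw | hw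
  · obtain ⟨X, p, q, r, s, hX, hbox, k1, k2, k3, k4, k5, k6, k7, k8, k9⟩ := hc0 hw
    have hcX : (.inl c : ZMod N ⊕ ZMod N) ∉ X := by
      rw [hbox.memA, sub_self, ZMod.val_zero]
      have := hbox.p1
      omega
    obtain ⟨Z, hZ, hZ7, -⟩ := Pool.Agent.Helper49.RG.lemma2 hb h1 hS hX h.e
      (fun g => hcX (g.mpr k1))
    rcases hZ with rfl | rfl
    · exact opts_of_box hb hm hbox hZ7 k1 k2 k3 k4 k8
    · exfalso
      obtain ⟨c', d', e1, e2, e3, e4⟩ := seven_A hb hX.compl hZ7 (x := c)
        (mem_compl.mpr hcX) (notMem_compl.mpr k1)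
      simp only [mem_compl] at e1 e2 e4
      rcases e3 with e3 | e3
      · -- columns c - 1, ..., c + 2
        have g0 : c' = c - 1 := by rw [e3]; ring
        subst g0
        have small : ∀ (k : ℕ), 0 < k → k < 9 → ∀ x : ZMod N, x + (k : ZMod N) ≠ x := by
          intro k hk hk9 x hx
          have := small_ne hN (j := k) (k := 0) hk9 (by omega) (by omega) x
          apply this
          rw [Nat.cast_zero, add_zero]
          exact hx
        have s1 := small 1 (by omega) (by omega)
        have s2 := small 2 (by omega) (by omega)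
        have s3 := small 3 (by omega) (by omega)
        have s4 := small 4 (by omega) (by omega)
        push_cast at s1 s2 s3 s4
        have r1 : (.inr d : ZMod N ⊕ ZMod N) ∉ X := by
          rw [← hm.b]
          refine (not_congr (k2 (c - 1) (fun hh => s1 (c - 1) (by linear_combination -hh)))).mp ?_
          rw [e1]
          left; rfl
        have r2 : (.inr (d + 1) : ZMod N ⊕ ZMod N) ∉ X := by
          rw [← hm.g]
          refine (not_congr (k2 (c + 1) (fun hh => s1 c (by linear_combination hh)))).mp ?_
          rw [e1]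
          right; right; left; ring
        have r3 : (.inr (d + 2) : ZMod N ⊕ ZMod N) ∈ X := by
          rw [← hm.a]
          refine (k2 (c - 2) (fun hh => s2 (c - 2) (by linear_combination -hh))).mp ?_
          by_contra hh
          rw [e1] at hh
          rcases hh with hh | hh | hh | hh
          · exact s1 (c - 2) (by linear_combination -hh)
          · exact s2 (c - 2) (by linear_combination -hh)
          · exact s3 (c - 2) (by linear_combination -hh)
          · exact s4 (c - 2) (by linear_combination -hh)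
        have r4 : (.inr (f (c + 2)) : ZMod N ⊕ ZMod N) ∉ X := by
          refine (not_congr (k2 (c + 2) (fun hh => s2 c (by linear_combination hh)))).mp ?_
          rw [e1]
          right; right; right; ring
        rw [e2] at r1 r2 r4
        have r3' : ¬ (d + 2 = d' ∨ d + 2 = d' + 1 ∨ d + 2 = d' + 2) := by
          rw [← e2]
          exact not_not.mpr r3
        push Not at r3'
        obtain ⟨q1, q2, q3⟩ := r3'
        have hd : d' = d - 1 := by
          rcases r1 with r1 | r1 | r1
          · exact absurd (by rw [r1]) q3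
          · rw [r1]; ring
          · rcases r2 with r2 | r2 | r2
            · exact absurd (by linear_combination r2) q2
            · exact absurd (by linear_combination r2) q3
            · exfalso
              exact s1 d (by linear_combination r2 - r1)
        subst hd
        have hT2 := hm.ne_T2 hN (fun X' hX' h9 => h1 X' _ hX' h9 hm7.1 hm7.2)
        rcases r4 with r4 | r4 | r4
        · exact hT2 r4
        · have g : f (c + 2) = f (c - 1) := by rw [r4, hm.b]; ring
          have := f.injective g
          exact s3 (c - 1) (by linear_combination this)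
        · have g : f (c + 2) = f (c + 1) := by rw [r4, hm.g]; ring
          have := f.injective g
          exact s1 (c + 1) (by linear_combination this)
      · -- columns c - 2, ..., c + 1
        have g0 : c' = c - 2 := by rw [e3]; ring
        subst g0
        have g1 : (.inl (c + 1) : ZMod N ⊕ ZMod N) ∉ X := by
          rw [e1]
          right; right; right; ring
        have g2 : (.inl (c + 2) : ZMod N ⊕ ZMod N) ∈ X := by
          by_contra hh
          rw [e1] at hh
          have small : ∀ (k : ℕ), 0 < k → k < 9 → ∀ x : ZMod N, x + (k : ZMod N) ≠ x := by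
            intro k hk hk9 x hx
            have := small_ne hN (j := k) (k := 0) hk9 (by omega) (by omega) x
            apply this
            rw [Nat.cast_zero, add_zero]
            exact hx
          have s1 := small 1 (by omega) (by omega)
          have s2 := small 2 (by omega) (by omega)
          have s3 := small 3 (by omega) (by omega)
          have s4 := small 4 (by omega) (by omega)
          push_cast at s1 s2 s3 s4
          rcases hh with hh | hh | hh | hh
          · exact s4 (c - 2) (by linear_combination hh)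
          · exact s3 (c - 1) (by linear_combination hh)
          · exact s2 c (by linear_combination hh)
          · exact s1 (c + 1) (by linear_combination hh)
        rw [hbox.memA] at g1 g2
        have v1 : (c + 1 - c).val = 1 := by
          have g : c + 1 - c = ((1 : ℕ) : ZMod N) := by push_cast; ring
          rw [g, ZMod.val_natCast_of_lt (by omega)]
        have v2 : (c + 2 - c).val = 2 := by
          have g : c + 2 - c = ((2 : ℕ) : ZMod N) := by push_cast; ring
          rw [g, ZMod.val_natCast_of_lt (by omega)]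
        rw [v1] at g1
        rw [v2] at g2
        have := hbox.p1
        omega
  · obtain ⟨X, p, q, r, s, hX, hbox, k1, k2, k3, k4, k5, k6, k7, k8, k9, k10, k11⟩ := hw0 hw
    have hcX : (.inl c : ZMod N ⊕ ZMod N) ∉ X := by
      rw [hbox.memA, sub_self, ZMod.val_zero]
      have := hbox.p1
      omega
    obtain ⟨Z, hZ, hZ7, -⟩ := Pool.Agent.Helper49.RG.lemma2 hb h1 hS hX h.e
      (fun g => hcX (g.mpr k1))
    rcases hZ with rfl | rfl
    · exact opts_of_box hb hm hbox hZ7 k1 k2 k3 k4 k10
    · exfalso
      have hsub : insert (.inr (d - 1) : ZMod N ⊕ ZMod N) (m7 c d) ⊆ Xᶜ := by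
        intro v hv
        rw [mem_insert] at hv
        rw [mem_compl]
        rcases hv with rfl | hv
        · exact k6
        · exact k5 v hv
      have hd : (.inr (d - 1) : ZMod N ⊕ ZMod N) ∉ m7 c d := by
        rw [mem_m7_r hN]
        have small : ∀ (k : ℕ), 0 < k → k < 9 → ∀ x : ZMod N, x + (k : ZMod N) ≠ x := by
          intro k hk hk9 x hx
          have := small_ne hN (j := k) (k := 0) hk9 (by omega) (by omega) x
          apply this
          rw [Nat.cast_zero, add_zero]
          exact hx
        have s1 := small 1 (by omega) (by omega)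
        have s2 := small 2 (by omega) (by omega)
        have s3 := small 3 (by omega) (by omega)
        push_cast at s1 s2 s3
        rintro (hh | hh | hh)
        · exact s1 (d - 1) (by linear_combination -hh)
        · exact s2 (d - 1) (by linear_combination -hh)
        · exact s3 (d - 1) (by linear_combination -hh)
      have hcd := card_le_card hsub
      rw [card_insert_of_notMem hd, hm7.2] at hcd
      omega

/-- No free side, from the words. -/
theorem no_free_of
    (hw0 : ∀ (g : Equiv.Perm (ZMod N)) (c d : ZMod N), Bad g → M7 g c d →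
      (g.symm (g c - 1) - c).val % 2 = 1 → Pool.Agent.Helper59.RG.W0 g c d)
    (hc0 : ∀ (g : Equiv.Perm (ZMod N)) (c d : ZMod N), Bad g → M7 g c d → SC0 g c d)
    (hb : Bad f)
    (h1 : ∀ (g : Equiv.Perm (ZMod N)), Bad g → ∀ X Y : Finset (ZMod N ⊕ ZMod N), Side g X →
      X.card = 9 → Side g Y → Y.card = 7 → ¬ Y ⊆ X)
    {S : Finset (ZMod N ⊕ ZMod N)} (hS : Min9 f S) (h : Free f S c d) : False := by
  obtain ⟨z, k1, ⟨k2, k3⟩ | ⟨k2, k3⟩⟩ :=
    opts hb (h1 f hb) hS h (hw0 f c d hb h.m) (hc0 f c d hb h.m)
  · exact Pool.Agent.Helper59.RG.case_plus hb (h1 f hb) hw0 hS h k2 k1 k3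
  · exact Pool.Agent.Helper59.RG.case_minus hb (h1 f hb) hS h k2 k1 k3

end Pool.Agent.Helper46.M7
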