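import Pool.Agent.Helper46.M7.NoFree
import Pool.Agent.Helper46.M7.W0
import Pool.Agent.Helper26.M7.C0

/-!
There is no free side with seven vertices. (Problem MP_d067c8_co.)
-/

namespace Pool.Agent.Helper46.M7

open Finset Pool.Agent.Helper19.CF Pool.Agent.Helper19.RG

variable {N : ℕ} [NeZero N] {f : Equiv.Perm (ZMod N)} {c d : ZMod N}

theorem no_free (hb : Bad f)
    (h1 : ∀ (g : Equiv.Perm (ZMod N)), Bad g → ∀ X Y : Finset (ZMod N ⊕ ZMod N), Side g X →
      X.card = 9 → Side g Y → Y.card = 7 → ¬ Y ⊆ X)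
    {S : Finset (ZMod N ⊕ ZMod N)} (hS : Min9 f S) (h : Free f S c d) : False :=
  no_free_of (fun _ _ _ hg hm hw => w0 hg hm hw) (fun _ _ _ hg hm hw => hm.c0 hg hw) hb h1 hS h

end Pool.Agent.Helper46.M7
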