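import Pool.Agent.Helper61.M7.Nine3
import Pool.Agent.Helper46.M7.W0

/-!
No side with nine vertices contains a side with seven vertices. (Problem MP_d067c8_co.)
-/

namespace Pool.Agent.Helper46.M7

open Finset Pool.Agent.Helper19.CF Pool.Agent.Helper19.RG

variable {N : ℕ} [NeZero N] {f : Equiv.Perm (ZMod N)} {c d : ZMod N}

theorem w0_fr (N : ℕ) [NeZero N] : Pool.Agent.Helper61.M7.W0 N := by
  intro f hb hF hw
  obtain ⟨X, p, q, r, s, -, -, -, -, -, k4, -, k6, -⟩ :=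
    w0 hb hF.m7 (by rw [sub_zero]; exact hw)
  rw [zero_sub] at k6
  exact ⟨X, k4, k6⟩

theorem no_nine (hb : Bad f) (h : Pool.Agent.Helper19.RG.M7 f c d)
    {X : Finset (ZMod N ⊕ ZMod N)} (hX : Side f X) (h9 : X.card = 9) : ¬ m7 c d ⊆ X :=
  Pool.Agent.Helper61.M7.no_nine_of (w0_fr N) hb h hX h9

end Pool.Agent.Helper46.M7
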