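import Pool.Agent.Helper19.RG.Assembly
import Pool.Agent.Helper64.M7.ExFree
import Pool.Agent.Helper26.M7.Rows4
import Pool.Agent.Helper46.M7.Final3
import Pool.Agent.Helper46.M7.NoNine

/-!
All rows together. (Problem MP_d067c8_co.)
-/

namespace Pool.Agent.Helper46.M7

open Finset Pool.Agent.Helper19.CF Pool.Agent.Helper19.RG

variable {N : ℕ} [NeZero N]

theorem hnine (g : Equiv.Perm (ZMod N)) (hg : Bad g) (X Y : Finset (ZMod N ⊕ ZMod N))
    (h1 : Side g X) (h2 : X.card = 9) (h3 : Side g Y) (h4 : Y.card = 7) : ¬ Y ⊆ X :=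
  no_nine_of (fun _ _ _ hb h _ hX h9 => no_nine hb h hX h9) hg h1 h2 h3 h4

theorem allRows (N : ℕ) [NeZero N] : Rows N := by
  refine ⟨fun _ _ _ hb h _ hX h9 => no_nine hb h hX h9, ?_, hw1_all, hw1'_all hnine⟩
  intro g S hb hS Y hY x hx hc
  obtain ⟨f', s, c, d, hF, -, -⟩ := exists_free hb (hnine g hb) hS hY hx hc
  exact no_free (hb.iso s.φ) hnine (hS.im s.φ) hF

/-- Every cyclically 5-edge-connected cycle permutation graph with `N ≥ 9` odd has the flow. -/
theorem flow_all' {f : Equiv.Perm (ZMod N)} (hN : 9 ≤ N) (hodd : N % 2 = 1)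
    (hcyc : CyclicallyEdgeConnected (permGraph N f) 5) : HasFlow (permGraph N f) (9 / 2) :=
  flow_all (allRows N) hN hodd hcyc

end Pool.Agent.Helper46.M7
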