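import Pool.Agent.Helper19.RG.WordQ
import Pool.Agent.Helper19.RG.Arcs

/-!
Words given by natural numbers, and the 5-edge-cuts killing them.  (Problem MP_d067c8_co.)
-/

namespace Pool.Agent.Helper46.M7

open Finset Pool.Agent.Helper19.CF Pool.Agent.Helper19.RG

variable {N : ℕ} [NeZero N] {f : Equiv.Perm (ZMod N)}

/-- The next position. -/
def sc (N x : ℕ) : ℕ := if x + 1 = N then 0 else x + 1

omit [NeZero N] in
theorem sc_cast (x : ℕ) : ((sc N x : ℕ) : ZMod N) = (x : ZMod N) + 1 := by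
  unfold sc
  split_ifs with h
  · have h1 : ((x + 1 : ℕ) : ZMod N) = 0 := by rw [h, ZMod.natCast_self]
    push_cast at h1
    rw [h1, Nat.cast_zero]
  · push_cast
    rfl

theorem sc_val (x : ZMod N) : sc N x.val = (x + 1).val := by
  have h1 : x.val < N := ZMod.val_lt x
  have h2 : ((sc N x.val : ℕ) : ZMod N) = x + 1 := by
    rw [sc_cast, ZMod.natCast_zmod_val]
  have h3 : sc N x.val < N := by
    unfold sc
    split_ifs <;> omega
  rw [← h2, ZMod.val_natCast_of_lt h3]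

/-- No vertex of a side has two neighbours outside. -/
theorem side_two (hN : 5 < N) (hcyc : CyclicallyEdgeConnected (permGraph N f) 5)
    {M : Finset (ZMod N ⊕ ZMod N)} (hM : Side f M) {v u w : ZMod N ⊕ ZMod N} (hv : v ∈ M)
    (hu : u ∉ M) (hw : w ∉ M) (huw : u ≠ w) (hvu : (permGraph N f).Adj v u)
    (hvw : (permGraph N f).Adj v w) : False := by
  classical
  have hreg : ∀ v, (permGraph N f).degree v = 3 := permGraph_regular (by omega)
  have h4 := dd_erase (permGraph N f) hreg hv hu hw huw hvu hvw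
  have h5 := hM.dd
  have h6 := hM.seven
  have h7 := hM.seven'
  have h8 : (M.erase v).card = M.card - 1 := card_erase_of_mem hv
  have h9 : (M.erase v)ᶜ.card = Fintype.card (ZMod N ⊕ ZMod N) - (M.card - 1) := by
    rw [card_compl, h8]
  rw [card_compl] at h7
  have h10 := small_side (permGraph N f) hreg hcyc (M.erase v) (by omega)
  omega

theorem starA (hN : 5 < N) (hcyc : CyclicallyEdgeConnected (permGraph N f) 5)
    {M : Finset (ZMod N ⊕ ZMod N)} (hM : Side f M) {x : ZMod N}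
    (h1 : (.inl x : ZMod N ⊕ ZMod N) ∈ M) (h2 : (.inr (f x) : ZMod N ⊕ ZMod N) ∉ M) :
    (.inl (x + 1) : ZMod N ⊕ ZMod N) ∈ M ∧ (.inl (x - 1) : ZMod N ⊕ ZMod N) ∈ M ∧
    (.inr (f x + 1) : ZMod N ⊕ ZMod N) ∉ M ∧ (.inr (f x - 1) : ZMod N ⊕ ZMod N) ∉ M := by
  have hM' := hM.compl
  have e1 : (permGraph N f).Adj (.inl x) (.inl (x + 1)) := (adj_ll (by omega) _ _).mpr (Or.inl rfl)
  have e2 : (permGraph N f).Adj (.inl x) (.inl (x - 1)) :=
    (adj_ll (by omega) _ _).mpr (Or.inr (by ring))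
  have e3 : (permGraph N f).Adj (.inl x) (.inr (f x)) := (adj_lr _ _).mpr rfl
  have e4 : (permGraph N f).Adj (.inr (f x)) (.inr (f x + 1)) :=
    (adj_rr (by omega) _ _).mpr (Or.inl rfl)
  have e5 : (permGraph N f).Adj (.inr (f x)) (.inr (f x - 1)) :=
    (adj_rr (by omega) _ _).mpr (Or.inr (by ring))
  refine ⟨?_, ?_, ?_, ?_⟩
  · by_contra h
    exact side_two hN hcyc hM h1 h2 h Sum.inr_ne_inl e3 e1
  · by_contra h
    exact side_two hN hcyc hM h1 h2 h Sum.inr_ne_inl e3 e2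
  · intro h
    exact side_two hN hcyc hM' (mem_compl.mpr h2) (notMem_compl.mpr h1) (notMem_compl.mpr h)
      Sum.inl_ne_inr e3.symm e4
  · intro h
    exact side_two hN hcyc hM' (mem_compl.mpr h2) (notMem_compl.mpr h1) (notMem_compl.mpr h)
      Sum.inl_ne_inr e3.symm e5

theorem starB (hN : 5 < N) (hcyc : CyclicallyEdgeConnected (permGraph N f) 5)
    {M : Finset (ZMod N ⊕ ZMod N)} (hM : Side f M) {x : ZMod N}
    (h1 : (.inr (f x) : ZMod N ⊕ ZMod N) ∈ M) (h2 : (.inl x : ZMod N ⊕ ZMod N) ∉ M) :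
    (.inr (f x + 1) : ZMod N ⊕ ZMod N) ∈ M ∧ (.inr (f x - 1) : ZMod N ⊕ ZMod N) ∈ M ∧
    (.inl (x + 1) : ZMod N ⊕ ZMod N) ∉ M ∧ (.inl (x - 1) : ZMod N ⊕ ZMod N) ∉ M := by
  have h := starA hN hcyc hM.compl (mem_compl.mpr h2) (notMem_compl.mpr h1)
  simp only [mem_compl, not_not] at h
  exact ⟨h.2.2.1, h.2.2.2, h.1, h.2.1⟩

/-- A word given by natural numbers: the spokes `(Q i, R i)`, `a ≤ i ≤ b`, and the colours of the
positions modulo 2; `IA` and `IB` are the indices of the monochromatic steps. -/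
structure NW (f : Equiv.Perm (ZMod N)) (a b : ℤ) (Q R : ℤ → ℕ) (cA cB : ℕ → ℕ)
    (IA IB : Finset ℤ) : Prop where
  le : a ≤ b
  lt : ∀ i, a ≤ i → i ≤ b → Q i < N ∧ R i < N
  sp : ∀ i, a ≤ i → i ≤ b → f (Q i : ZMod N) = (R i : ZMod N)
  inj : ∀ i i', a ≤ i → i ≤ b → a ≤ i' → i' ≤ b → Q i = Q i' → i = i'
  adjA : ∀ i, a ≤ i → i + 1 ≤ b → i % 2 = 0 → Q (i + 1) = sc N (Q i) ∨ Q i = sc N (Q (i + 1))
  adjB : ∀ i, a ≤ i → i + 1 ≤ b → i % 2 = 1 → R (i + 1) = sc N (R i) ∨ R i = sc N (R (i + 1))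
  col : ∀ i, a ≤ i → i ≤ b → (cA (Q i) + cB (R i)) % 2 = 1
  iA : ∀ i ∈ IA, a ≤ i ∧ i + 1 ≤ b ∧ i % 2 = 0 ∧ (cA (Q i) + cA (Q (i + 1))) % 2 = 0
  iB : ∀ i ∈ IB, a ≤ i ∧ i + 1 ≤ b ∧ i % 2 = 1 ∧ (cB (R i) + cB (R (i + 1))) % 2 = 0
  mA : ∀ x, x < N → (cA x + cA (sc N x)) % 2 = 0 →
    ∃ i ∈ IA, (Q i = x ∧ Q (i + 1) = sc N x) ∨ (Q i = sc N x ∧ Q (i + 1) = x)
  mB : ∀ x, x < N → (cB x + cB (sc N x)) % 2 = 0 →
    ∃ i ∈ IB, (R i = x ∧ R (i + 1) = sc N x) ∨ (R i = sc N x ∧ R (i + 1) = x)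

/-- The colours. -/
def nc (c : ℕ → ℕ) (x : ZMod N) : Bool := decide (c x.val % 2 = 0)

omit [NeZero N] in
theorem nc_ne (c c' : ℕ → ℕ) (x y : ZMod N) :
    nc c x ≠ nc c' y ↔ (c x.val + c' y.val) % 2 = 1 := by
  unfold nc
  rw [Ne, decide_eq_decide]
  omega

omit [NeZero N] in
theorem nc_eq (c c' : ℕ → ℕ) (x y : ZMod N) :
    nc c x = nc c' y ↔ (c x.val + c' y.val) % 2 = 0 := by
  unfold nc
  rw [decide_eq_decide]
  omega

variable {a b : ℤ} {Q R : ℤ → ℕ} {cA cB : ℕ → ℕ} {IA IB : Finset ℤ}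

theorem NW.qz (h : NW f a b Q R cA cB IA IB) :
    QZ f a b (fun i => (Q i : ZMod N)) (nc cA) (nc cB) := by
  constructor
  · exact h.le
  · intro i i' h1 h2 h3 h4 h5
    apply h.inj i i' h1 h2 h3 h4
    have h6 := congrArg ZMod.val h5
    rwa [ZMod.val_natCast_of_lt (h.lt i h1 h2).1, ZMod.val_natCast_of_lt (h.lt i' h3 h4).1] at h6
  · intro i h1 h2 h3
    show (Q (i + 1) : ZMod N) = (Q i : ZMod N) + 1 ∨ (Q i : ZMod N) = (Q (i + 1) : ZMod N) + 1
    rcases h.adjA i h1 h2 h3 with h4 | h4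
    · left
      rw [h4, sc_cast]
    · right
      conv_lhs => rw [h4]
      rw [sc_cast]
  · intro i h1 h2 h3
    show f (Q (i + 1) : ZMod N) = f (Q i : ZMod N) + 1 ∨ f (Q i : ZMod N) = f (Q (i + 1) : ZMod N) + 1
    rw [h.sp i h1 (by omega), h.sp (i + 1) (by omega) h2]
    rcases h.adjB i h1 h2 h3 with h4 | h4
    · left
      rw [h4, sc_cast]
    · right
      conv_lhs => rw [h4]
      rw [sc_cast]
  · intro i h1 h2
    show nc cA (Q i : ZMod N) ≠ nc cB (f (Q i : ZMod N))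
    rw [h.sp i h1 h2, nc_ne, ZMod.val_natCast_of_lt (h.lt i h1 h2).1,
      ZMod.val_natCast_of_lt (h.lt i h1 h2).2]
    exact h.col i h1 h2
  · intro x hx
    rw [nc_eq, ← sc_val] at hx
    obtain ⟨i, h1, h2⟩ := h.mA _ (ZMod.val_lt x) hx
    obtain ⟨h3, h4, h5, -⟩ := h.iA i h1
    refine ⟨i, h3, h4, h5, ?_⟩
    show ((Q i : ZMod N) = x ∧ (Q (i + 1) : ZMod N) = x + 1) ∨
      ((Q i : ZMod N) = x + 1 ∧ (Q (i + 1) : ZMod N) = x)
    rcases h2 with ⟨g1, g2⟩ | ⟨g1, g2⟩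
    · left
      rw [g1, g2, sc_cast, ZMod.natCast_zmod_val]
      exact ⟨rfl, rfl⟩
    · right
      rw [g1, g2, sc_cast, ZMod.natCast_zmod_val]
      exact ⟨rfl, rfl⟩
  · intro x hx
    rw [nc_eq, ← sc_val] at hx
    obtain ⟨i, h1, h2⟩ := h.mB _ (ZMod.val_lt x) hx
    obtain ⟨h3, h4, h5, -⟩ := h.iB i h1
    refine ⟨i, h3, h4, h5, ?_⟩
    show (f (Q i : ZMod N) = x ∧ f (Q (i + 1) : ZMod N) = x + 1) ∨
      (f (Q i : ZMod N) = x + 1 ∧ f (Q (i + 1) : ZMod N) = x)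
    rw [h.sp i h3 (by omega), h.sp (i + 1) (by omega) h4]
    rcases h2 with ⟨g1, g2⟩ | ⟨g1, g2⟩
    · left
      rw [g1, g2, sc_cast, ZMod.natCast_zmod_val]
      exact ⟨rfl, rfl⟩
    · right
      rw [g1, g2, sc_cast, ZMod.natCast_zmod_val]
      exact ⟨rfl, rfl⟩

/-- A cut killing a word. -/
structure NKill (f : Equiv.Perm (ZMod N)) (a b : ℤ) (Q R : ℤ → ℕ) (cA cB : ℕ → ℕ)
    (IA IB : Finset ℤ) (Y : Finset (ZMod N ⊕ ZMod N)) (k : ℤ) (κ : ℕ) : Prop where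
  side : Side f Y
  ak : a ≤ k
  kb : k ≤ b
  other : ∀ x, x ≠ (Q k : ZMod N) →
    ((.inl x : ZMod N ⊕ ZMod N) ∈ Y ↔ (.inr (f x) : ZMod N ⊕ ZMod N) ∈ Y)
  before : ∀ i, a ≤ i → i < k → (.inl (Q i : ZMod N) : ZMod N ⊕ ZMod N) ∈ Y ∧
    (.inr (R i : ZMod N) : ZMod N ⊕ ZMod N) ∈ Y
  after : ∀ i, k < i → i ≤ b → (.inl (Q i : ZMod N) : ZMod N ⊕ ZMod N) ∉ Y ∧
    (.inr (R i : ZMod N) : ZMod N ⊕ ZMod N) ∉ Y
  even : k % 2 = 0 → nB Y = nA Y + 1 ∧
    (.inr (R k : ZMod N) : ZMod N ⊕ ZMod N) ∈ Y ∧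
    (.inr ((R k : ZMod N) + 1) : ZMod N ⊕ ZMod N) ∈ Y ∧
    (.inr ((R k : ZMod N) - 1) : ZMod N ⊕ ZMod N) ∈ Y ∧
    (.inl (Q k : ZMod N) : ZMod N ⊕ ZMod N) ∉ Y ∧
    (.inl ((Q k : ZMod N) + 1) : ZMod N ⊕ ZMod N) ∉ Y ∧
    (.inl ((Q k : ZMod N) - 1) : ZMod N ⊕ ZMod N) ∉ Y
  odd : k % 2 = 1 → nA Y = nB Y + 1 ∧
    (.inl (Q k : ZMod N) : ZMod N ⊕ ZMod N) ∈ Y ∧
    (.inl ((Q k : ZMod N) + 1) : ZMod N ⊕ ZMod N) ∈ Y ∧
    (.inl ((Q k : ZMod N) - 1) : ZMod N ⊕ ZMod N) ∈ Y ∧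
    (.inr (R k : ZMod N) : ZMod N ⊕ ZMod N) ∉ Y ∧
    (.inr ((R k : ZMod N) + 1) : ZMod N ⊕ ZMod N) ∉ Y ∧
    (.inr ((R k : ZMod N) - 1) : ZMod N ⊕ ZMod N) ∉ Y
  parA : (nA Y + (IA.filter (· < k)).card) % 2 = 1
  parB : (nB Y + (IB.filter (· < k)).card) % 2 = 1
  κ2 : κ < 2
  bdA : ∀ x : ZMod N, (.inl x : ZMod N ⊕ ZMod N) ∈ Y →
    ((.inl (x + 1) : ZMod N ⊕ ZMod N) ∉ Y ∨ (.inl (x - 1) : ZMod N ⊕ ZMod N) ∉ Y) →
    cA x.val % 2 = κ
  bdB : ∀ x : ZMod N, (.inr x : ZMod N ⊕ ZMod N) ∈ Y →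
    ((.inr (x + 1) : ZMod N ⊕ ZMod N) ∉ Y ∨ (.inr (x - 1) : ZMod N ⊕ ZMod N) ∉ Y) →
    cB x.val % 2 = κ
  last : κ = (if b % 2 = 0 then cA (Q b) % 2 else cB (R b) % 2)

/-- The number of monochromatic edges inside. -/
theorem card_mono {P : ZMod N → Prop} [DecidablePred P] {c : ℕ → ℕ} {S : ℤ → ℕ}
    {I : Finset ℤ} {k : ℤ} (hN : 2 < N)
    (hlt : ∀ i ∈ I, S i < N ∧ S (i + 1) < N)
    (hadj : ∀ i ∈ I, S (i + 1) = sc N (S i) ∨ S i = sc N (S (i + 1)))
    (hinj : ∀ i ∈ I, ∀ i' ∈ I, (S i = S i' ∨ S i = S (i' + 1) ∨ S (i + 1) = S i' ∨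
      S (i + 1) = S (i' + 1)) → i = i')
    (hmono : ∀ i ∈ I, (c (S i) + c (S (i + 1))) % 2 = 0)
    (hall : ∀ x, x < N → (c x + c (sc N x)) % 2 = 0 →
      ∃ i ∈ I, (S i = x ∧ S (i + 1) = sc N x) ∨ (S i = sc N x ∧ S (i + 1) = x))
    (hP : ∀ i ∈ I, (P (S i : ZMod N) ↔ i < k) ∧ (P (S (i + 1) : ZMod N) ↔ i < k)) :
    (univ.filter fun x : ZMod N => nc c x = nc c (x + 1) ∧ P x).card =
      (I.filter (· < k)).card := by
  symm
  refine card_bij (fun i _ => if S (i + 1) = sc N (S i) then (S i : ZMod N)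
    else (S (i + 1) : ZMod N)) ?_ ?_ ?_
  · intro i hi
    rw [mem_filter] at hi
    obtain ⟨h1, h2⟩ := hi
    obtain ⟨g1, g2⟩ := hlt i h1
    rw [mem_filter]
    refine ⟨mem_univ _, ?_⟩
    by_cases h3 : S (i + 1) = sc N (S i)
    · rw [if_pos h3]
      refine ⟨?_, (hP i h1).1.mpr h2⟩
      rw [nc_eq, ← sc_val, ZMod.val_natCast_of_lt g1, ← h3]
      exact hmono i h1
    · rw [if_neg h3]
      have h4 := (hadj i h1).resolve_left h3
      refine ⟨?_, (hP i h1).2.mpr h2⟩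
      rw [nc_eq, ← sc_val, ZMod.val_natCast_of_lt g2, ← h4]
      have := hmono i h1
      omega
  · intro i hi i' hi' h
    rw [mem_filter] at hi hi'
    obtain ⟨g1, g2⟩ := hlt i hi.1
    obtain ⟨g3, g4⟩ := hlt i' hi'.1
    apply hinj i hi.1 i' hi'.1
    have h5 := congrArg ZMod.val h
    by_cases h3 : S (i + 1) = sc N (S i) <;> by_cases h4 : S (i' + 1) = sc N (S i')
    · simp only [if_pos h3, if_pos h4] at h5
      rw [ZMod.val_natCast_of_lt g1, ZMod.val_natCast_of_lt g3] at h5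
      exact Or.inl h5
    · simp only [if_pos h3, if_neg h4] at h5
      rw [ZMod.val_natCast_of_lt g1, ZMod.val_natCast_of_lt g4] at h5
      exact Or.inr (Or.inl h5)
    · simp only [if_neg h3, if_pos h4] at h5
      rw [ZMod.val_natCast_of_lt g2, ZMod.val_natCast_of_lt g3] at h5
      exact Or.inr (Or.inr (Or.inl h5))
    · simp only [if_neg h3, if_neg h4] at h5
      rw [ZMod.val_natCast_of_lt g2, ZMod.val_natCast_of_lt g4] at h5
      exact Or.inr (Or.inr (Or.inr h5))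
  · intro x hx
    rw [mem_filter] at hx
    obtain ⟨-, h1, h2⟩ := hx
    rw [nc_eq, ← sc_val] at h1
    obtain ⟨i, hi, h3⟩ := hall _ (ZMod.val_lt x) h1
    have hne : x.val ≠ sc N (sc N x.val) := by
      intro h4
      have h5 := ZMod.val_lt x
      unfold sc at h4
      split_ifs at h4 <;> omega
    rcases h3 with ⟨g1, g2⟩ | ⟨g1, g2⟩
    · have g3 : (S i : ZMod N) = x := by rw [g1, ZMod.natCast_zmod_val]
      refine ⟨i, ?_, ?_⟩
      · rw [mem_filter]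
        refine ⟨hi, ?_⟩
        rw [← g3] at h2
        exact (hP i hi).1.mp h2
      · rw [if_pos (by rw [g2, g1])]
        exact g3
    · have g3 : (S (i + 1) : ZMod N) = x := by rw [g2, ZMod.natCast_zmod_val]
      refine ⟨i, ?_, ?_⟩
      · rw [mem_filter]
        refine ⟨hi, ?_⟩
        rw [← g3] at h2
        exact (hP i hi).2.mp h2
      · rw [if_neg (by rw [g2, g1]; exact hne)]
        exact g3

omit [NeZero N] in
theorem NW.injB (h : NW f a b Q R cA cB IA IB) {i i' : ℤ} (h1 : a ≤ i) (h2 : i ≤ b)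
    (h3 : a ≤ i') (h4 : i' ≤ b) (h5 : R i = R i') : i = i' := by
  apply h.inj i i' h1 h2 h3 h4
  have h6 := h.sp i h1 h2
  have h7 := h.sp i' h3 h4
  rw [h5, ← h7] at h6
  have h8 := congrArg ZMod.val (f.injective h6)
  rwa [ZMod.val_natCast_of_lt (h.lt i h1 h2).1, ZMod.val_natCast_of_lt (h.lt i' h3 h4).1] at h8

/-- A word is killed, or there is a flow. -/
theorem NW.kill (hN : 5 < N) (hcyc : CyclicallyEdgeConnected (permGraph N f) 5)
    (hno : ¬ HasFlow (permGraph N f) (9 / 2)) (h : NW f a b Q R cA cB IA IB) :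
    ∃ (Y : Finset (ZMod N ⊕ ZMod N)) (k : ℤ) (κ : ℕ), NKill f a b Q R cA cB IA IB Y k κ := by
  classical
  obtain ⟨Y, k, hk⟩ := h.qz.kill hN hcyc hno
  have hspk : ∀ i, a ≤ i → i ≤ b → f (Q i : ZMod N) = (R i : ZMod N) := h.sp
  have hbef : ∀ i, a ≤ i → i < k → (.inl (Q i : ZMod N) : ZMod N ⊕ ZMod N) ∈ Y ∧
      (.inr (R i : ZMod N) : ZMod N ⊕ ZMod N) ∈ Y := by
    intro i h1 h2
    have g1 := hk.entIn i h1 h2.le
    have g2 := hk.exIn i h1 h2
    have g3 := hk.kb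
    unfold ent at g1
    unfold Helper19.RG.ext at g2
    rw [← hspk i h1 (by omega)]
    rcases Int.emod_two_eq_zero_or_one i with g4 | g4
    · rw [if_pos g4] at g1 g2
      exact ⟨g2, g1⟩
    · rw [if_neg (by omega)] at g1 g2
      exact ⟨g1, g2⟩
  have haft : ∀ i, k < i → i ≤ b → (.inl (Q i : ZMod N) : ZMod N ⊕ ZMod N) ∉ Y ∧
      (.inr (R i : ZMod N) : ZMod N ⊕ ZMod N) ∉ Y := by
    intro i h1 h2
    have g1 := hk.entOut i h1 h2
    have g2 := hk.exOut i h1.le h2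
    have g3 := hk.ak
    unfold ent at g1
    unfold Helper19.RG.ext at g2
    rw [← hspk i (by omega) h2]
    rcases Int.emod_two_eq_zero_or_one i with g4 | g4
    · rw [if_pos g4] at g1 g2
      exact ⟨g2, g1⟩
    · rw [if_neg (by omega)] at g1 g2
      exact ⟨g1, g2⟩
  have hcut := hk.cut
  have hRk := hspk k hk.ak hk.kb
  refine ⟨Y, k, (if b % 2 = 0 then cA (Q b) % 2 else cB (R b) % 2), hk.side, hk.ak, hk.kb,
    hk.other, hbef, haft, ?_, ?_, ?_, ?_, ?_, ?_, ?_, rfl⟩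
  · intro hev
    obtain ⟨g1, g2⟩ := hcut.1 hev
    obtain ⟨g3, g4, g5, g6⟩ := starB hN hcyc hk.side g1 g2
    simp only [hRk] at g1 g3 g4
    exact ⟨hk.heavy.1 hev, g1, g3, g4, g2, g5, g6⟩
  · intro hod
    obtain ⟨g1, g2⟩ := hcut.2 hod
    obtain ⟨g3, g4, g5, g6⟩ := starA hN hcyc hk.side g1 g2
    simp only [hRk] at g2 g5 g6
    exact ⟨hk.heavy.2 hod, g1, g3, g4, g2, g5, g6⟩
  · have g1 := hk.parA
    rw [card_mono (P := fun x => (.inl x : ZMod N ⊕ ZMod N) ∈ Y) (c := cA) (S := Q) (I := IA)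
      (k := k) (by omega)] at g1
    · exact g1
    · intro i hi
      obtain ⟨e1, e2, -, -⟩ := h.iA i hi
      exact ⟨(h.lt i e1 (by omega)).1, (h.lt (i + 1) (by omega) e2).1⟩
    · intro i hi
      obtain ⟨e1, e2, e3, -⟩ := h.iA i hi
      exact h.adjA i e1 e2 e3
    · intro i hi i' hi' hh
      obtain ⟨e1, e2, e3, -⟩ := h.iA i hi
      obtain ⟨e4, e5, e6, -⟩ := h.iA i' hi'
      rcases hh with hh | hh | hh | hh
      · exact h.inj _ _ (by omega) (by omega) (by omega) (by omega) hh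
      · have := h.inj _ _ (by omega) (by omega) (by omega) (by omega) hh
        omega
      · have := h.inj _ _ (by omega) (by omega) (by omega) (by omega) hh
        omega
      · have := h.inj _ _ (by omega) (by omega) (by omega) (by omega) hh
        omega
    · exact fun i hi => (h.iA i hi).2.2.2
    · exact h.mA
    · intro i hi
      obtain ⟨e1, e2, e3, -⟩ := h.iA i hi
      exact hk.stepA e1 e2 e3
  · have g1 := hk.parB
    rw [card_mono (P := fun x => (.inr x : ZMod N ⊕ ZMod N) ∈ Y) (c := cB) (S := R) (I := IB)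
      (k := k) (by omega)] at g1
    · exact g1
    · intro i hi
      obtain ⟨e1, e2, -, -⟩ := h.iB i hi
      exact ⟨(h.lt i e1 (by omega)).2, (h.lt (i + 1) (by omega) e2).2⟩
    · intro i hi
      obtain ⟨e1, e2, e3, -⟩ := h.iB i hi
      exact h.adjB i e1 e2 e3
    · intro i hi i' hi' hh
      obtain ⟨e1, e2, e3, -⟩ := h.iB i hi
      obtain ⟨e4, e5, e6, -⟩ := h.iB i' hi'
      rcases hh with hh | hh | hh | hh
      · exact h.injB (by omega) (by omega) (by omega) (by omega) hh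
      · have := h.injB (by omega) (by omega) (by omega) (by omega) hh
        omega
      · have := h.injB (by omega) (by omega) (by omega) (by omega) hh
        omega
      · have := h.injB (by omega) (by omega) (by omega) (by omega) hh
        omega
    · exact fun i hi => (h.iB i hi).2.2.2
    · exact h.mB
    · intro i hi
      obtain ⟨e1, e2, e3, -⟩ := h.iB i hi
      have := hk.stepB e1 e2 e3
      simp only [hspk i e1 (by omega), hspk (i + 1) (by omega) e2] at this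
      exact this
  · split_ifs <;> omega
  · -- the boundary of the first rim
    intro x hx hx'
    have key : ∀ y : ZMod N, (permGraph N f).Adj (.inl x) (.inl y) →
        (.inl y : ZMod N ⊕ ZMod N) ∉ Y →
        cA x.val % 2 = (if b % 2 = 0 then cA (Q b) % 2 else cB (R b) % 2) := by
      intro y hxy hy
      have g1 := hk.bd _ hx _ hy hxy
      unfold endB at g1
      have hbl := h.lt b h.le le_rfl
      split_ifs at g1 ⊢ with g2
      · have g3 : nc cA x = nc cA (Q b : ZMod N) := g1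
        rw [nc_eq, ZMod.val_natCast_of_lt hbl.1] at g3
        omega
      · have g3 : nc cA x = nc cB (f (Q b : ZMod N)) := g1
        rw [hspk b h.le le_rfl, nc_eq, ZMod.val_natCast_of_lt hbl.2] at g3
        omega
    rcases hx' with hx' | hx'
    · exact key _ ((adj_ll (by omega) _ _).mpr (Or.inl rfl)) hx'
    · exact key _ ((adj_ll (by omega) _ _).mpr (Or.inr (by ring))) hx'
  · intro x hx hx'
    have key : ∀ y : ZMod N, (permGraph N f).Adj (.inr x) (.inr y) →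
        (.inr y : ZMod N ⊕ ZMod N) ∉ Y →
        cB x.val % 2 = (if b % 2 = 0 then cA (Q b) % 2 else cB (R b) % 2) := by
      intro y hxy hy
      have g1 := hk.bd _ hx _ hy hxy
      unfold endB at g1
      have hbl := h.lt b h.le le_rfl
      split_ifs at g1 ⊢ with g2
      · have g3 : nc cB x = nc cA (Q b : ZMod N) := g1
        rw [nc_eq, ZMod.val_natCast_of_lt hbl.1] at g3
        omega
      · have g3 : nc cB x = nc cB (f (Q b : ZMod N)) := g1
        rw [hspk b h.le le_rfl, nc_eq, ZMod.val_natCast_of_lt hbl.2] at g3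
        omega
    rcases hx' with hx' | hx'
    · exact key _ ((adj_rr (by omega) _ _).mpr (Or.inl rfl)) hx'
    · exact key _ ((adj_rr (by omega) _ _).mpr (Or.inr (by ring))) hx'

end Pool.Agent.Helper46.M7
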